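import Pool.Statements.S00249
import Pool.Agent.H737R3.Bridge

set_option autoImplicit false
open Pool Pool.MP_70675a_ag

namespace Pool.Agent.S00249

/-- Over an algebraically closed field of char 0, for n≥1, any nonempty finite set W of points in P^n and r≥1, every nonzero degree-d form vanishing to order rn at all points of W has d ≥ r·α(W) + r(n−1). -/
theorem result :
    ∀ (k : Type) [Field k] [IsAlgClosed k] [CharZero k] (n : ℕ), 1 ≤ n →
    ∀ (W : Finset (Projectivization k (Fin (n+1) → k))), W.Nonempty →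
    ∀ (r : ℕ), 1 ≤ r →
    ∀ (d : ℕ) (f : MvPolynomial (Fin (n+1)) k), f ≠ 0 → f.IsHomogeneous d →
      (∀ P ∈ W, f ∈ (Ideal.span {g : MvPolynomial (Fin (n+1)) k |
          g.IsHomogeneous 1 ∧ MvPolynomial.eval P.rep g = 0}) ^ (r * n)) →
      ∃ (e : ℕ) (g : MvPolynomial (Fin (n+1)) k), g ≠ 0 ∧ g.IsHomogeneous e ∧
        (∀ P ∈ W, g ∈ Ideal.span {h : MvPolynomial (Fin (n+1)) k |
          h.IsHomogeneous 1 ∧ MvPolynomial.eval P.rep h = 0}) ∧
        r * e + r * (n - 1) ≤ d := by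
  classical
  intro k _ _ _ n hn W hW r hr d f hf0 hfh hf
  -- the finite set of representatives
  set Z : Set (Fin (n + 1) → k) := (fun P : Projectivization k (Fin (n+1) → k) => P.rep) '' (W : Set _)
    with hZ
  have hZfin : Z.Finite := W.finite_toSet.image _
  have hZne : Z.Nonempty := by
    obtain ⟨P, hP⟩ := hW
    exact ⟨P.rep, P, hP, rfl⟩
  have hZ0 : ∀ v ∈ Z, v ≠ 0 := by
    rintro _ ⟨P, -, rfl⟩
    exact P.rep_nonzero
  have hfZ : ∀ v ∈ Z, f ∈ Pool.Agent.Chud.mI v ^ (r * n) := by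
    rintro _ ⟨P, hP, rfl⟩
    exact Ideal.pow_right_mono (Pool.Agent.H737R3.linI_le_mI P.rep) (r * n) (hf P hP)
  have hrn : 1 ≤ r * n := Nat.mul_pos hr hn
  have hex : ∃ e : ℕ, ∃ G : MvPolynomial (Fin (n + 1)) k, G ≠ 0 ∧ G.IsHomogeneous e ∧
      ∀ v ∈ Z, G ∈ Pool.Agent.Chud.mI v ^ 1 :=
    ⟨d, f, hf0, hfh, fun v hv => Ideal.pow_le_pow_right hrn (hfZ v hv)⟩
  obtain ⟨G, hG0, hGh, hGv⟩ := Nat.find_spec hex
  have hlow : Pool.Agent.H580C.LowT Z 1 (Nat.find hex) := by
    intro F e hF hFe hFv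
    exact Nat.find_min' hex ⟨F, hF, hFe, hFv⟩
  have key := Pool.Agent.H580C.p_CD k n 1 (Nat.find hex) (r * n) d Z f hn le_rfl hZfin hZne hZ0
    hlow hf0 hfh hfZ
  refine ⟨Nat.find hex, G, hG0, hGh, ?_, ?_⟩
  · intro P hP
    have h1 := Pool.Agent.H737R3.mem_linI_pow hGh P.rep_nonzero (hGv P.rep ⟨P, hP, rfl⟩)
    rw [pow_one] at h1
    exact h1
  · have h1 : 1 + n - 1 = n := by omega
    rw [h1] at key
    have h2 : r * n * (Nat.find hex + n - 1) = (r * (Nat.find hex) + r * (n - 1)) * n := by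
      have h3 : Nat.find hex + n - 1 = Nat.find hex + (n - 1) := by omega
      rw [h3]
      ring
    rw [h2] at key
    exact Nat.le_of_mul_le_mul_right key (by omega)

end Pool.Agent.S00249
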