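import Pool.Statements.S00830
import Pool.Agent.K3h61.Proj

set_option autoImplicit false
open Pool Pool.MP_196888_al

namespace Pool.Agent.S00830

/-- The negation of the preceding statement: For every group G, every m ≥ 2 and every lattice isomorphism φ from the subgroups of G^m to the subgroups of a group H such that H is the internal direct product of the images of the coordinate subgroups, the image of the first coordinate subgroup is isomorphic to G.

The counterexample is G = C₉₁ ⋊ C₃ with a generator of C₃ acting as multiplication by 16; the direct
powers of C₉₁ ⋊ C₃ with a generator acting as multiplication by 9 have isomorphic lattices of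
subgroups, with corresponding coordinate subgroups, and the two groups of order 273 are not
isomorphic. -/
theorem result :
    ¬ (∀ (G : Type) [Group G] (n : ℕ) (H : Type) [Group H]
      (φ : Subgroup (Fin (n + 2) → G) ≃o Subgroup H),
      (∀ i : Fin (n + 2),
          (φ (MonoidHom.mulSingle (fun _ : Fin (n + 2) => G) i).range).Normal) →
      (⨆ i : Fin (n + 2), φ (MonoidHom.mulSingle (fun _ : Fin (n + 2) => G) i).range) = ⊤ →
      iSupIndep (fun i : Fin (n + 2) =>
          φ (MonoidHom.mulSingle (fun _ : Fin (n + 2) => G) i).range) →
      Nonempty (↥(φ (MonoidHom.mulSingle (fun _ : Fin (n + 2) => G) 0).range) ≃* G)) := by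
  intro h
  obtain ⟨h1, h2, h3, h4⟩ := Pool.Agent.K3h61.Proj.counterexample (Fin (0 + 2))
  exact h4 0 (h (Pool.Agent.K3h61.Proj.Gp false) 0 (Fin (0 + 2) → Pool.Agent.K3h61.Proj.Gp true)
    (Pool.Agent.K3h61.Proj.phi (Fin (0 + 2))) h1 h2 h3)

end Pool.Agent.S00830
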