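-- Proof of the frozen statement S05816 (helper48).  The limit measure `mu` on `[1, 2]` of the Riesz products
-- `∏ (1 + cos (N ^ (k + 1) x))`, `N = 2 ^ 20`, is not a Rajchman measure, but its image under the Cayley transform is one,
-- by the second derivative test of van der Corput.  The group is the multiplication by `exp (i t x)` on `L²(mu)`.
import Pool.Statements.S05816
import Pool.Agent.K3h48.WS.Op

set_option autoImplicit false
open Filter Topology
open Pool Pool.MP_ae9c87_an

namespace Pool.Agent.S05816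

/-- The negation of the preceding statement: For every contractive strongly continuous semigroup T on a complex Hilbert space with cogenerator V = I − 2∫₀^∞ e^{−t}T(t)dt, T(t)x → 0 weakly for all x iff Vⁿx → 0 weakly for all x. -/
theorem result :
    ¬ (∀ (H : Type) [NormedAddCommGroup H] [InnerProductSpace ℂ H] [CompleteSpace H]
      (T : ℝ → H →L[ℂ] H),
      T 0 = 1 →
      (∀ s t : ℝ, 0 ≤ s → 0 ≤ t → T (s + t) = T s * T t) →
      (∀ x : H, ContinuousOn (fun t : ℝ => T t x) (Set.Ici 0)) →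
      (∀ t : ℝ, 0 ≤ t → ‖T t‖ ≤ 1) →
      ((∀ x y : H, Tendsto (fun t : ℝ => inner ℂ (T t x) y) atTop (𝓝 0)) ↔
        (∀ x y : H, Tendsto (fun n : ℕ =>
            inner ℂ ((fun z : H => z - (2 : ℂ) •
              ∫ t in Set.Ioi (0 : ℝ), ((Real.exp (-t) : ℝ) : ℂ) • T t z)^[n] x) y)
            atTop (𝓝 0)))) := by
  intro h
  have h1 := h Pool.Agent.K3h48.WS.H Pool.Agent.K3h48.WS.T Pool.Agent.K3h48.WS.T_zero
    (fun s t _ _ => Pool.Agent.K3h48.WS.T_add s t)
    (fun x => (Pool.Agent.K3h48.WS.T_cont x).continuousOn)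
    (fun t _ => Pool.Agent.K3h48.WS.norm_T_le t)
  apply Pool.Agent.K3h48.WS.not_weak_T
  rw [h1]
  have key : ∀ F : Pool.Agent.K3h48.WS.H → Pool.Agent.K3h48.WS.H,
      (∀ z, F z = Pool.Agent.K3h48.WS.M Pool.Agent.K3h48.WS.ca z) →
      ∀ x y : Pool.Agent.K3h48.WS.H, Tendsto (fun n : ℕ => inner ℂ (F^[n] x) y) atTop (𝓝 0) := by
    intro F hF x y
    have e2 : ∀ n : ℕ, F^[n] x = Pool.Agent.K3h48.WS.M (Pool.Agent.K3h48.WS.ca ^ n) x := by
      intro n
      induction n with
      | zero => rw [pow_zero, Pool.Agent.K3h48.WS.M_one]; rfl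
      | succ n ih =>
        rw [Function.iterate_succ_apply', ih, pow_succ', Pool.Agent.K3h48.WS.M_mul, hF]
        rfl
    simp only [e2]
    exact Pool.Agent.K3h48.WS.weak_V x y
  exact key _ (fun z => Pool.Agent.K3h48.WS.cogen z)

end Pool.Agent.S05816
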