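import Pool.Statements.S09135
import Pool.Agent.K3h1.Chr.Main

set_option autoImplicit false
open SimpleGraph
open Pool Pool.MP_61e017_co

namespace Pool.Agent.S09135

/-- For k≥3, n≥2, a finite graph has the same number of proper q-colorings as K_{1,n,n+k} for every q iff it is isomorphic to an edgeless n-set joined to a tree on n+k+1 vertices, or an edgeless (n+k)-set joined to a tree on n+1 vertices. -/
theorem result :
    ∀ n k : ℕ, 3 ≤ k → 2 ≤ n →
      ∀ (V : Type) [Fintype V] (G : SimpleGraph V),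
        (∀ q : ℕ, Nat.card (G.Coloring (Fin q)) =
            Nat.card ((completeMultipartiteGraph
              (fun i : Fin 3 => Fin ((![1, n, n + k] : Fin 3 → ℕ) i))).Coloring (Fin q))) ↔
        ((∃ T : SimpleGraph (Fin (n + k + 1)), T.IsTree ∧
            Nonempty (G ≃g SimpleGraph.fromRel
              (fun a b : Fin n ⊕ Fin (n + k + 1) =>
                (∃ x y, a = Sum.inr x ∧ b = Sum.inr y ∧ T.Adj x y) ∨
                ∃ x y, a = Sum.inl x ∧ b = Sum.inr y))) ∨
         (∃ T : SimpleGraph (Fin (n + 1)), T.IsTree ∧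
            Nonempty (G ≃g SimpleGraph.fromRel
              (fun a b : Fin (n + k) ⊕ Fin (n + 1) =>
                (∃ x y, a = Sum.inr x ∧ b = Sum.inr y ∧ T.Adj x y) ∨
                ∃ x y, a = Sum.inl x ∧ b = Sum.inr y)))) := by
  classical
  intro n k hk hn V _ G
  have hm : 2 ≤ n + k := by omega
  have hJ : ∀ a b, Pool.Agent.K3h1.Chr.AJ ![1, n, n + k] a b = true ↔
      (completeMultipartiteGraph (fun i : Fin 3 => Fin ((![1, n, n + k] : Fin 3 → ℕ) i))).Adj a b := by
    intro a b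
    rw [Pool.Agent.K3h1.Chr.AJ_true]
    exact Iff.rfl
  obtain ⟨⟨T1, hT1, ⟨i1⟩⟩, ⟨T2, hT2, ⟨i2⟩⟩⟩ := Pool.Agent.K3h1.Chr.J_forms hn hm hJ
  constructor
  · intro h
    have hAG : ∀ a b, (fun a b => decide (G.Adj a b)) a b = true ↔ G.Adj a b := fun a b => by simp
    have hA : Pool.Agent.K3h1.Chr.Sym (fun a b => decide (G.Adj a b)) :=
      ⟨fun a b => by simp [G.adj_comm], fun a => by simp⟩
    exact Pool.Agent.K3h1.Chr.forward hn hm hAG hA (fun q => by
      rw [Pool.Agent.K3h1.Chr.NN_eq hAG, Pool.Agent.K3h1.Chr.NN_eq hJ]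
      exact h q)
  · rintro (⟨T, hT, ⟨e⟩⟩ | ⟨T, hT, ⟨e⟩⟩) q
    · rw [Pool.Agent.K3h1.Chr.coloring_iso i1 q, Pool.Agent.K3h1.Chr.coloring_iso e q]
      exact Pool.Agent.K3h1.Chr.join_count n (n + k) q hT hT1
    · rw [Pool.Agent.K3h1.Chr.coloring_iso i2 q, Pool.Agent.K3h1.Chr.coloring_iso e q]
      exact Pool.Agent.K3h1.Chr.join_count (n + k) n q hT hT2

end Pool.Agent.S09135
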