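import Pool.Statements.S11006
import Pool.Agent.K3h47.Hypersimplex

set_option autoImplicit false
open scoped Pointwise
open Pool Pool.MP_b7cbb2_co

namespace Pool.Agent.S11006

/-- The negation of the preceding statement: For any finite group acting linearly on Z^n and invariant lattice polytope P whose equivariant h*-series is a polynomial, every coefficient with positive h*_i has nonzero sum over the group, i.e. contains the trivial representation. -/
theorem result :
    ¬ (∀ (G : Type) [Group G] [Fintype G] (n : ℕ)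
      (ρ : G →* Matrix.GeneralLinearGroup (Fin n) ℤ)
      (V : Finset (Fin n → ℤ)) (P : Set (Fin n → ℝ)),
      V.Nonempty →
      (∀ g : G, ∀ v ∈ V,
        Matrix.mulVec (ρ g : Matrix (Fin n) (Fin n) ℤ) v ∈ V) →
      P = convexHull ℝ
        ((fun v : Fin n → ℤ => fun j => ((v j : ℤ) : ℝ)) '' (V : Set (Fin n → ℤ))) →
      ∀ (d : ℕ) (ι : (Fin d → ℤ) →ₗ[ℤ] (Fin n → ℤ))
        (σ : G → Matrix (Fin d) (Fin d) ℤ) (Φ : G → PowerSeries ℤ),
      Function.Injective ι →
      (∀ x : Fin n → ℤ,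
        (∃ y : Fin d → ℤ, ι y = x) ↔
          (fun j => ((x j : ℤ) : ℝ)) ∈ vectorSpan ℝ P) →
      (∀ (g : G) (y : Fin d → ℤ),
        ι (Matrix.mulVec (σ g) y) =
          Matrix.mulVec (ρ g : Matrix (Fin n) (Fin n) ℤ) (ι y)) →
      (∀ g : G, Φ g =
        PowerSeries.mk (fun m : ℕ =>
          ((Set.ncard {x : Fin n → ℤ |
              (fun j => ((x j : ℤ) : ℝ)) ∈ (m : ℝ) • P ∧
              Matrix.mulVec (ρ g : Matrix (Fin n) (Fin n) ℤ) x = x} : ℕ) : ℤ))
        * (1 - PowerSeries.X)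
        * ((Matrix.det (1 - (Polynomial.X : Polynomial ℤ) •
              (σ g).map Polynomial.C) : Polynomial ℤ) : PowerSeries ℤ)) →
      (∃ N : ℕ, ∀ g : G, ∀ i : ℕ, N ≤ i →
        PowerSeries.coeff (R := ℤ) i (Φ g) = 0) →
      ∀ i : ℕ, 0 < PowerSeries.coeff (R := ℤ) i (Φ 1) →
        (∑ g : G, PowerSeries.coeff (R := ℤ) i (Φ g)) ≠ 0) := by
  intro h
  classical
  have key := h (Multiplicative (ZMod 6)) 4 K3h47.Hyp.rho K3h47.Hyp.V K3h47.Hyp.P
    ⟨_, (by decide : (![1,1,0,0] : Fin 4 → ℤ) ∈ K3h47.Hyp.V)⟩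
    (fun g v hv => by
      rw [K3h47.Hyp.rho_val]
      exact K3h47.Hyp.V_inv' _ v hv)
    rfl 3 K3h47.Hyp.iota K3h47.Hyp.sig
    (fun g => K3h47.Hyp.Ph (Multiplicative.toAdd g).val)
    K3h47.Hyp.iota_injective
    K3h47.Hyp.iota_range
    (fun g y => by
      rw [K3h47.Hyp.rho_val]
      exact K3h47.Hyp.equivariant _ y)
    (fun g => by
      rw [K3h47.Hyp.Ph, K3h47.Hyp.F, K3h47.Hyp.D]
      congr 3
      funext m
      rw [K3h47.Hyp.cnt]
      congr 2
      ext x
      simp only [Set.mem_ofPred_eq]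
      rw [K3h47.Hyp.rho_val, ← K3h47.Hyp.mem_smul_iff]
      rfl)
    ⟨4, fun g i hi => K3h47.Hyp.Ph_vanish _ (ZMod.val_lt _) i hi⟩
    1
  have h0 : (Multiplicative.toAdd (1 : Multiplicative (ZMod 6))).val = 0 := rfl
  simp only [h0, K3h47.Hyp.one0] at key
  apply key (by norm_num)
  have e : ∀ f : Multiplicative (ZMod 6) → ℤ, ∑ g, f g =
      f (Multiplicative.ofAdd 0) + f (Multiplicative.ofAdd 1) + f (Multiplicative.ofAdd 2) +
      f (Multiplicative.ofAdd 3) + f (Multiplicative.ofAdd 4) + f (Multiplicative.ofAdd 5) := by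
    intro f
    exact Fin.sum_univ_six (fun i : Fin 6 => f (Multiplicative.ofAdd (i : ZMod 6)))
  rw [e]
  have v0 : (Multiplicative.toAdd (Multiplicative.ofAdd (0 : ZMod 6))).val = 0 := rfl
  have v1 : (Multiplicative.toAdd (Multiplicative.ofAdd (1 : ZMod 6))).val = 1 := rfl
  have v2 : (Multiplicative.toAdd (Multiplicative.ofAdd (2 : ZMod 6))).val = 2 := rfl
  have v3 : (Multiplicative.toAdd (Multiplicative.ofAdd (3 : ZMod 6))).val = 3 := rfl
  have v4 : (Multiplicative.toAdd (Multiplicative.ofAdd (4 : ZMod 6))).val = 4 := rfl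
  have v5 : (Multiplicative.toAdd (Multiplicative.ofAdd (5 : ZMod 6))).val = 5 := rfl
  rw [v0, v1, v2, v3, v4, v5, K3h47.Hyp.one0, K3h47.Hyp.one1, K3h47.Hyp.one2, K3h47.Hyp.one3,
    K3h47.Hyp.one4, K3h47.Hyp.one5]
  norm_num

end Pool.Agent.S11006
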