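import Pool.Statements.S11677
import Pool.Agent.K3h29.SP.Ring
import Pool.Agent.K3h29.SP.Gal
import Pool.Agent.K3h29.SP.Conn
import Pool.Agent.K3h29.SP.Join
import Pool.Agent.K3h29.SP.Unq
import Pool.Agent.K3h29.SP.LemA
import Pool.Agent.K3h29.SP.LemB
import Pool.Agent.K3h29.SP.Case2
import Pool.Agent.K3h29.SP.Case1
import Pool.Agent.K3h29.SP.Fin
import Pool.Agent.K3h29.SP.Start
import Pool.Agent.K3h29.SP.Fact
import Pool.Agent.K3h29.SP.Ivt
import Pool.Agent.K3h29.SP.Tri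
import Pool.Agent.K3h29.SP.Last
import Pool.Agent.K3h29.SP.NoReal

set_option autoImplicit false
open Pool Pool.MP_d42559_co

namespace Pool.Agent.S11677

open Pool.Agent.K3h29.SP in
theorem all_parts :
    ∀ k : ℕ, 4 ≤ k → ∃ m n : ℕ, ∃ A : Matrix (Fin m) (Fin n) SignType,
      (∃ B : Matrix (Fin m) (Fin n) ℝ, (∀ i j, SignType.sign (B i j) = A i j) ∧ B.rank = 3) ∧
      (∀ B : Matrix (Fin m) (Fin n) ℝ, (∀ i j, SignType.sign (B i j) = A i j) → 3 ≤ B.rank) ∧
      (∃ B : Matrix (Fin m) (Fin n) ℚ, (∀ i j, SignType.sign (B i j) = A i j) ∧ B.rank = k) ∧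
      (∀ B : Matrix (Fin m) (Fin n) ℚ, (∀ i j, SignType.sign (B i j) = A i j) → k ≤ B.rank) :=
  last ring (noReal gal conn join lemB (case2 inv (lemA unq)) (case1 unq (lemA unq))
    (finThm gal) start) fact ivt tri

/-- For every k ≥ 4 there is a sign pattern whose real realizations have minimum rank exactly 3 while its rational realizations have minimum rank exactly k. -/
theorem result :
    ∀ k : ℕ, 4 ≤ k → ∃ m n : ℕ, ∃ A : Matrix (Fin m) (Fin n) SignType,
      (∃ B : Matrix (Fin m) (Fin n) ℝ, (∀ i j, SignType.sign (B i j) = A i j) ∧ B.rank = 3) ∧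
      (∀ B : Matrix (Fin m) (Fin n) ℝ, (∀ i j, SignType.sign (B i j) = A i j) → 3 ≤ B.rank) ∧
      (∃ B : Matrix (Fin m) (Fin n) ℚ, (∀ i j, SignType.sign (B i j) = A i j) ∧ B.rank = k) ∧
      (∀ B : Matrix (Fin m) (Fin n) ℚ, (∀ i j, SignType.sign (B i j) = A i j) → k ≤ B.rank) := by
  exact all_parts

end Pool.Agent.S11677
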