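import Pool.Statements.S12493
import Pool.Agent.K3h83.CI.Fin

set_option autoImplicit false
open Pool Pool.MP_f8e628_co

namespace Pool.Agent.S12493

/-- For every ε>0 there is T such that for all t≥T, every 3-uniform hypergraph without repeated edges and with max degree at most t has its edges partitioned into at most (3/2+ε)t matchings. -/
theorem result :
    ∀ ε : ℝ, 0 < ε → ∃ T : ℕ, ∀ t : ℕ, T ≤ t →
      ∀ (V : Type) [Fintype V] [DecidableEq V] (H : Finset (Finset V)),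
        (∀ e ∈ H, e.card = 3) →
        (∀ v : V, (H.filter (fun e => v ∈ e)).card ≤ t) →
        ∃ k : ℕ, (k : ℝ) ≤ (3 / 2 + ε) * (t : ℝ) ∧
          ∃ c : Finset V → Fin k,
            ∀ e ∈ H, ∀ f ∈ H, e ≠ f → c e = c f → Disjoint e f := by
  intro ε hε
  -- choice of `θ`
  obtain ⟨θ, hθ, hθ1, hθε⟩ : ∃ θ : ℝ, 0 < θ ∧ θ < 1 ∧ 3 / 2 / (1 - θ) ≤ 3 / 2 + ε / 2 := by
    refine ⟨min (1 / 2) (ε / 6), by positivity, by
      have := min_le_left (1 / 2 : ℝ) (ε / 6)
      linarith, ?_⟩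
    set θ := min (1 / 2) (ε / 6) with hθ
    have h1 : θ ≤ 1 / 2 := min_le_left _ _
    have h2 : θ ≤ ε / 6 := min_le_right _ _
    rw [div_le_iff₀ (by linarith)]
    have h3 : 0 < θ := by positivity
    nlinarith
  obtain ⟨T, hT⟩ := K3h83.CI.main θ hθ hθ1
  obtain ⟨T', hT'⟩ := exists_nat_ge ((3 * T + 1) / (ε / 2))
  refine ⟨T', fun t ht V _ _ H hH3 hHd => ?_⟩
  classical
  have h3 : K3h83.CI.Hyp3 (fun e : {e : Finset V // e ∈ H} => e.1) t := by
    refine ⟨Subtype.val_injective, fun e => hH3 e.1 e.2, fun v => ?_⟩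
    refine le_trans ?_ (hHd v)
    apply Finset.card_le_card_of_injOn (fun e : {e : Finset V // e ∈ H} => e.1)
    · intro e he
      rw [Finset.mem_coe, Finset.mem_filter] at he
      rw [Finset.mem_coe, Finset.mem_filter]
      exact ⟨e.2, he.2⟩
    · intro e _ f _ hef
      exact Subtype.ext hef
  obtain ⟨k, c, hk1, hk2, hc1, hc2⟩ := hT t V {e : Finset V // e ∈ H}
    (fun e : {e : Finset V // e ∈ H} => e.1) h3
  refine ⟨k, ?_, fun e => if h : e ∈ H then ⟨c ⟨e, h⟩, hc1 _⟩ else ⟨0, hk1⟩, ?_⟩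
  · have h4 : (3 * T + 1) / (ε / 2) ≤ (t : ℝ) := hT'.trans (by exact_mod_cast ht)
    rw [div_le_iff₀ (by positivity)] at h4
    have h5 : 3 / 2 / (1 - θ) * (t : ℝ) ≤ (3 / 2 + ε / 2) * t :=
      mul_le_mul_of_nonneg_right hθε (Nat.cast_nonneg t)
    linarith
  · intro e he f hf hne hcol
    simp only [dif_pos he, dif_pos hf] at hcol
    have h6 : c ⟨e, he⟩ = c ⟨f, hf⟩ := congrArg Fin.val hcol
    exact hc2 ⟨e, he⟩ ⟨f, hf⟩ (fun h => hne (congrArg Subtype.val h)) h6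

end Pool.Agent.S12493
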