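import Pool.Statements.S14714
import Pool.Agent.K3h39.LT.Fin

set_option autoImplicit false
open Pool Pool.MP_55663b_lc

namespace Pool.Agent.S14714

/-- The negation of the preceding statement: Suppose binary linear codes of infinitely many lengths n have rate ≥ r>0 and relative distance ≥ δ>0. Suppose also the uniform test on nonzero dual words of weight ≤3 rejects every word δ/3-far from the code with probability ≥ s>0. Then the number of such dual words grows faster than any linear func -/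
theorem result :
    ¬ (∀ (S : Set ℕ), S.Infinite →
  ∀ (C : ∀ n : ℕ, Submodule (ZMod 2) (Fin n → ZMod 2)) (r δ s : ℝ),
    0 < r → 0 < δ → 0 < s →
    (∀ n ∈ S, r * (n : ℝ) ≤ (Module.finrank (ZMod 2) (C n) : ℝ)) →
    (∀ n ∈ S, ∀ c ∈ C n, c ≠ 0 → δ * (n : ℝ) ≤ (hammingNorm c : ℝ)) →
    (∀ n ∈ S, ∀ w : Fin n → ZMod 2,
      (∀ c ∈ C n, δ / 3 * (n : ℝ) ≤ (hammingDist w c : ℝ)) →
      s ≤ ({u : Fin n → ZMod 2 | (∀ c ∈ C n, ∑ i, u i * c i = 0) ∧
              0 < hammingNorm u ∧ hammingNorm u ≤ 3 ∧ ∑ i, u i * w i ≠ 0}.ncard : ℝ) /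
          ({u : Fin n → ZMod 2 | (∀ c ∈ C n, ∑ i, u i * c i = 0) ∧
              0 < hammingNorm u ∧ hammingNorm u ≤ 3}.ncard : ℝ)) →
    ∀ M : ℝ, ∃ N : ℕ, ∀ n ∈ S, N ≤ n →
      M * (n : ℝ) ≤ ({u : Fin n → ZMod 2 | (∀ c ∈ C n, ∑ i, u i * c i = 0) ∧
              0 < hammingNorm u ∧ hammingNorm u ≤ 3}.ncard : ℝ)) := by
  classical
  intro h
  obtain ⟨r, δ, K, Qc, hr, hδ, hK, hQc, hfam⟩ := Pool.Agent.K3h39.LT.family
  set S : Set ℕ := {n | 0 < n ∧ ∃ C : Submodule (ZMod 2) (Fin n → ZMod 2),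
    Pool.Agent.K3h39.LT.GoodC r δ K Qc n C} with hS
  have hSinf : S.Infinite := by
    refine Set.infinite_of_forall_exists_gt fun a => ?_
    obtain ⟨n, hn, C, hC⟩ := hfam (a + 1)
    exact ⟨n, ⟨by omega, C, hC⟩, by omega⟩
  set C : ∀ n : ℕ, Submodule (ZMod 2) (Fin n → ZMod 2) := fun n =>
    if hn : ∃ C : Submodule (ZMod 2) (Fin n → ZMod 2),
      Pool.Agent.K3h39.LT.GoodC r δ K Qc n C then hn.choose else ⊥ with hCdef
  have hC : ∀ n ∈ S, Pool.Agent.K3h39.LT.GoodC r δ K Qc n (C n) := by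
    rintro n ⟨-, hn⟩
    simp only [hCdef]
    rw [dif_pos hn]
    exact hn.choose_spec
  obtain ⟨N, hN⟩ := h S hSinf C r δ (δ / (3 * K * Qc)) hr hδ (by positivity)
    (fun n hn => (hC n hn).rate) (fun n hn => (hC n hn).dist) (by
      intro n hn w hw
      have hn0 : (0 : ℝ) < n := by exact_mod_cast hn.1
      obtain ⟨c, hc, hd⟩ := (hC n hn).test w
      have h1 := (hw c hc).trans hd
      have hcount := (hC n hn).count
      have hle : ({u : Fin n → ZMod 2 | (∀ c ∈ C n, ∑ i, u i * c i = 0) ∧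
              0 < hammingNorm u ∧ hammingNorm u ≤ 3 ∧ ∑ i, u i * w i ≠ 0}.ncard : ℝ) ≤
          ({u : Fin n → ZMod 2 | (∀ c ∈ C n, ∑ i, u i * c i = 0) ∧
              0 < hammingNorm u ∧ hammingNorm u ≤ 3}.ncard : ℝ) := by
        have hsub : {u : Fin n → ZMod 2 | (∀ c ∈ C n, ∑ i, u i * c i = 0) ∧
              0 < hammingNorm u ∧ hammingNorm u ≤ 3 ∧ ∑ i, u i * w i ≠ 0} ⊆
            {u : Fin n → ZMod 2 | (∀ c ∈ C n, ∑ i, u i * c i = 0) ∧
              0 < hammingNorm u ∧ hammingNorm u ≤ 3} := fun u hu => ⟨hu.1, hu.2.1, hu.2.2.1⟩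
        exact_mod_cast Set.ncard_le_ncard hsub (Set.toFinite _)
      generalize ({u : Fin n → ZMod 2 | (∀ c ∈ C n, ∑ i, u i * c i = 0) ∧
              0 < hammingNorm u ∧ hammingNorm u ≤ 3 ∧ ∑ i, u i * w i ≠ 0}.ncard : ℝ) = V at *
      generalize ({u : Fin n → ZMod 2 | (∀ c ∈ C n, ∑ i, u i * c i = 0) ∧
              0 < hammingNorm u ∧ hammingNorm u ≤ 3}.ncard : ℝ) = T at *
      have h2 : 0 < K * V := lt_of_lt_of_le (by positivity) h1
      have hV : 0 < V := (mul_pos_iff_of_pos_left hK).1 h2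
      have hT : 0 < T := lt_of_lt_of_le hV hle
      rw [le_div_iff₀ hT]
      have h3 : δ / (3 * K * Qc) * T ≤ δ / (3 * K * Qc) * (Qc * n) := by gcongr
      refine h3.trans ?_
      have h4 : δ / (3 * K * Qc) * (Qc * n) = (δ / 3 * n) / K := by
        field_simp
      rw [h4, div_le_iff₀ hK, mul_comm V K]
      exact h1) (Qc + 1)
  obtain ⟨n, hn, C', hC'⟩ := hfam (N + 1)
  have hnS : n ∈ S := ⟨by omega, C', hC'⟩
  have h1 := hN n hnS (by omega)
  have h2 := (hC n hnS).count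
  have hn0 : (0 : ℝ) < n := by exact_mod_cast hnS.1
  have h3 := h1.trans h2
  nlinarith

end Pool.Agent.S14714
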