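import Pool.Statements.S15205
import Pool.Agent.K3h92.OC.PF
import Pool.Agent.K3h92.OC.SRn
import Pool.Agent.K3h92.OC.NBr
import Pool.Agent.K3h92.OC.Tm
import Pool.Agent.K3h92.OC.Scl
import Pool.Agent.K3h92.OC.LocC
import Pool.Agent.K3h92.OC.LocE
import Pool.Agent.K3h92.OC.Fin

set_option autoImplicit false
open Pool Pool.MP_ac65b7_lc

namespace Pool.Agent.S15205

open Pool.Agent.K3h92.OC in
/-- For any definably complete, restrained expansion of an ordered field, every subset of K definable from definable open sets (the open core) either has nonempty interior or is nowhere dense. -/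
theorem result :
  ∀ (K : Type) [Field K] [LinearOrder K] [IsStrictOrderedRing K] [TopologicalSpace K]
    [OrderTopology K] (L : FirstOrder.Language.{0,0}) [L.Structure K],
    (∅ : Set K).Definable L {v : Fin 3 → K | v 0 + v 1 = v 2} →
    (∅ : Set K).Definable L {v : Fin 3 → K | v 0 * v 1 = v 2} →
    (∅ : Set K).Definable L {v : Fin 2 → K | v 0 < v 1} →
    (∀ X : Set K, (Set.univ : Set K).Definable L {v : Fin 1 → K | v 0 ∈ X} →
        X.Nonempty → BddAbove X → ∃ s, IsLUB X s) →
    (∀ (n : ℕ) (D : Set (Fin n → K)) (g : (Fin n → K) → K),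
        (Set.univ : Set K).Definable L D → DiscreteTopology ↥D →
        (Set.univ : Set K).Definable L
          {v : Fin (n + 1) → K | Fin.init v ∈ D ∧ v (Fin.last n) = g (Fin.init v)} →
        interior (closure (g '' D)) = ∅) →
    ∀ (L' : FirstOrder.Language.{0,0}) [L'.Structure K],
      (∀ n, IsEmpty (L'.Functions n)) →
      (∀ (n : ℕ) (R : L'.Relations n),
          IsOpen {v : Fin n → K | FirstOrder.Language.Structure.RelMap R v} ∧
          (Set.univ : Set K).Definable L
            {v : Fin n → K | FirstOrder.Language.Structure.RelMap R v}) →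
      ∀ X : Set K, (Set.univ : Set K).Definable L' {v : Fin 1 → K | v 0 ∈ X} →
        (interior X).Nonempty ∨ interior (closure X) = ∅ := by
  intro K _ _ _ _ _ L _ hadd hmul hlt hlub hr L' _ h1 h2 X hX
  haveI : DC L K := ⟨hadd, hmul, hlt, hlub⟩
  have hr' : Restr L K := hr
  have hSR : ∀ (β : Type) [Finite β], SR L K β := fun β _ => sr_of (sr1 hr') β
  have hNB : NB L K := nb_of hSR
  have hTA : TAz L K := taz_of hNB
  have hT : T01 L K := t01_of hSR hNB
  obtain ⟨S, hS⟩ : ∃ S : Sc K L, TameFor S := by
    by_cases hD : HasD L K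
    · exact tame_hasD hNB hT hD
    · exact tame_fine hSR hT (fine_of_not_hasD hD)
  exact final S (fun α _ A hc hd => loc_closed S hS hTA hc hd) (fun α _ P h => Loc.not S h)
    (fun α _ P Q h h' => Loc.and S h h') (fun α α' _ _ σ P h => Loc.relabel S σ h)
    (fun α _ P h => loc_ex S hS h) L' h1 h2 X hX

end Pool.Agent.S15205
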