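import Pool.Statements.S17043
import Pool.Agent.K3h25.SumG

set_option autoImplicit false
open Pool Pool.MP_590852_nt

namespace Pool.Agent.S17043

/-- Every real x with 0 < x ≤ 1 equals g₁ + g₂, where g₁ and g₂ lie in (0,1) and the continued fraction partial quotients of each (computed via the Gauss map) tend to infinity.

Proof idea. For irrational x, complete quotients are chosen greedily: the state is a matrix
`[[P, -U], [-V, -Q]]` of determinant `-1`, starting with `[[x, -1], [-1, 0]]`; `b` is the least integer
with `b P > U`, `a` the largest integer with `(a P - V) (b P - U) < 1`. Then `P` does not increase, and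
if it did not tend to `0` the state would be eventually constant and `x` rational. The partial quotients
are at least `1 / P ^ 2 - 1`. For `x = m / q` take `g₂ = 1 / (q² α + q c)` and
`g₁ = (m α + d) / (q α + c)` where `m c - q d = 1` and the partial quotients of `α` of odd index are
divisible by `q²`. -/
theorem result :
    ∀ x : ℝ, 0 < x → x ≤ 1 →
      ∃ g₁ g₂ : ℝ,
        g₁ ∈ Set.Ioo (0 : ℝ) 1 ∧ g₂ ∈ Set.Ioo (0 : ℝ) 1 ∧
        Filter.Tendsto (fun n : ℕ => ⌊1 / ((fun y : ℝ => Int.fract (1 / y))^[n] g₁)⌋)
          Filter.atTop Filter.atTop ∧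
        Filter.Tendsto (fun n : ℕ => ⌊1 / ((fun y : ℝ => Int.fract (1 / y))^[n] g₂)⌋)
          Filter.atTop Filter.atTop ∧
        x = g₁ + g₂ := by
  intro x hx0 hx1
  obtain ⟨g₁, g₂, h1, h2, h3, h4, h5⟩ := Pool.Agent.K3h25.SumG.main x hx0 hx1
  exact ⟨g₁, g₂, h1, h2, h3, h4, h5⟩

end Pool.Agent.S17043
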